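import Pool.Agent.U934.Fock.Step

/-!
# The radial-derivative characterisation of the Fock spaces `F^p_α`, all `0 < p ≤ ∞`

For all `n ≥ 1`, `0 < p ≤ ∞`, `α > 0`, `N ≥ 1` and every entire function `f` on `ℂ^n`,

  `f ∈ F^p_α` if and only if `R^N f(z) / (1 + |z|²)^N ∈ L^p_α`.

Proof of the reverse implication, for one derivative with the weights `(1+|z|²)^{-k}`: on the shells
`m+1 ≤ |z|² < m+2` one compares `f(z)` with `f(sz)`, `s² = m/(m+1)`; the weight contracts by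
`e^{-α/2}`, the difference is bounded by the values of `Rf` on the segment from `sz` to `z`, and
these by the mean of `|Rf|^p` over a ball of radius about `1/|z|` (a sub-mean value inequality for
all `p > 0`).  So the integrals `X_m` of the `p`-th power of the weighted `|f|` over the shells
satisfy `X_{m+1} ≤ ρ X_m + Y_m` with `ρ < 1` and `∑ Y_m < ∞`.
-/

set_option autoImplicit false

namespace Pool.Agent.Results.MP_bbe01f_an.RadialDerivative

open MeasureTheory Set Pool.Agent.U934.Fock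
open scoped ENNReal

/-- `f` is an entire function on `ℂ^n`: at every point it is the sum of a convergent power
series. -/
def Entire (n : ℕ) (f : EuclideanSpace ℂ (Fin n) → ℂ) : Prop :=
  AnalyticOnNhd ℂ f univ

/-- `L^p_α`: the functions `f` with `f(z) e^{-α|z|²/2}` in `L^p(ℂ^n, dv)`, `0 < p ≤ ∞`, `dv` the
Lebesgue measure. -/
def MemL (n : ℕ) (p : ℝ≥0∞) (α : ℝ) (f : EuclideanSpace ℂ (Fin n) → ℂ) : Prop :=
  MemLp (fun z => f z * (Real.exp (-(α * ‖z‖ ^ 2 / 2)) : ℂ)) p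
    (volume : Measure (EuclideanSpace ℂ (Fin n)))

/-- The Fock space `F^p_α`: the entire functions in `L^p_α`. -/
def MemFock (n : ℕ) (p : ℝ≥0∞) (α : ℝ) (f : EuclideanSpace ℂ (Fin n) → ℂ) : Prop :=
  Entire n f ∧ MemL n p α f

/-- The partial derivative `∂f/∂z_k` at `z`. -/
noncomputable def partialDeriv (n : ℕ) (k : Fin n) (f : EuclideanSpace ℂ (Fin n) → ℂ)
    (z : EuclideanSpace ℂ (Fin n)) : ℂ :=
  deriv (fun t : ℂ => f (z + t • EuclideanSpace.single k 1)) 0

/-- The radial derivative `Rf(z) = ∑_k z_k ∂f/∂z_k(z)`. -/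
noncomputable def R (n : ℕ) (f : EuclideanSpace ℂ (Fin n) → ℂ) :
    EuclideanSpace ℂ (Fin n) → ℂ :=
  fun z => ∑ k, z k * partialDeriv n k f z

theorem R_eq {n : ℕ} {f : EuclideanSpace ℂ (Fin n) → ℂ} (hf : Differentiable ℂ f) :
    R n f = radial f := by
  funext z
  have h1 : ∀ k, partialDeriv n k f z = fderiv ℂ f z (EuclideanSpace.single k 1) := fun k =>
    (hf z).lineDeriv_eq_fderiv
  have h2 : z = ∑ k, z k • EuclideanSpace.single k (1 : ℂ) := by
    ext i
    simp [Finset.sum_apply, Pi.single_apply]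
  unfold R radial
  simp only [h1]
  conv_rhs => rw [show fderiv ℂ f z z = fderiv ℂ f z (∑ k, z k • EuclideanSpace.single k (1 : ℂ))
    from by rw [← h2]]
  rw [map_sum]
  simp [smul_eq_mul]

theorem Entire.differentiable {n : ℕ} {f : EuclideanSpace ℂ (Fin n) → ℂ} (hf : Entire n f) :
    Differentiable ℂ f :=
  fun z => (hf z (mem_univ z)).differentiableAt

theorem Entire.radial {n : ℕ} {f : EuclideanSpace ℂ (Fin n) → ℂ} (hf : Entire n f) :
    Entire n (radial f) := by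
  have h := AnalyticOnNhd.fderiv hf
  intro z hz
  have h1 : AnalyticAt ℂ (fun z => (fderiv ℂ f z, z)) z := (h z hz).prod analyticAt_id
  have h2 := (ContinuousLinearMap.id ℂ (EuclideanSpace ℂ (Fin n) →L[ℂ] ℂ)).analyticAt_bilinear
    (fderiv ℂ f z, z)
  exact AnalyticAt.fun_comp (g := fun x : (EuclideanSpace ℂ (Fin n) →L[ℂ] ℂ) ×
    EuclideanSpace ℂ (Fin n) => x.1 x.2) (f := fun z => (fderiv ℂ f z, z)) h2 h1

theorem Entire.R {n : ℕ} {f : EuclideanSpace ℂ (Fin n) → ℂ} (hf : Entire n f) :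
    Entire n (R n f) := by
  rw [R_eq hf.differentiable]; exact hf.radial

theorem Entire.iter {n : ℕ} {f : EuclideanSpace ℂ (Fin n) → ℂ} (hf : Entire n f) (N : ℕ) :
    Entire n ((RadialDerivative.R n)^[N] f) := by
  induction N with
  | zero => exact hf
  | succ N ih => rw [Function.iterate_succ_apply']; exact ih.R

theorem norm_form {n : ℕ} (α : ℝ) (k : ℕ) (g : EuclideanSpace ℂ (Fin n) → ℂ)
    (z : EuclideanSpace ℂ (Fin n)) :
    ‖g z / ((1 + ‖z‖ ^ 2 : ℝ) : ℂ) ^ k * (Real.exp (-(α * ‖z‖ ^ 2 / 2)) : ℂ)‖ =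
      wt α k z * ‖g z‖ := by
  rw [norm_mul, norm_div, norm_pow, Complex.norm_real, Complex.norm_real,
    Real.norm_of_nonneg (by positivity : 0 ≤ 1 + ‖z‖ ^ 2),
    Real.norm_of_nonneg (Real.exp_pos _).le]
  unfold wt
  ring

theorem cont_form {n : ℕ} (α : ℝ) (k : ℕ) {g : EuclideanSpace ℂ (Fin n) → ℂ}
    (hg : Continuous g) :
    Continuous (fun z : EuclideanSpace ℂ (Fin n) =>
      g z / ((1 + ‖z‖ ^ 2 : ℝ) : ℂ) ^ k * (Real.exp (-(α * ‖z‖ ^ 2 / 2)) : ℂ)) := by
  apply Continuous.mul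
  · apply hg.div
    · fun_prop
    · intro z
      apply pow_ne_zero
      rw [Complex.ofReal_ne_zero]
      positivity
  · fun_prop

/-- membership in `L^p_α` in terms of the weights, finite exponent -/
theorem memL_iff {n : ℕ} {p : ℝ≥0∞} (hp : p ≠ 0) (hpt : p ≠ ∞) (α : ℝ) (k : ℕ)
    {g : EuclideanSpace ℂ (Fin n) → ℂ} (hg : Continuous g) :
    MemL n p α (fun z => g z / ((1 + ‖z‖ ^ 2 : ℝ) : ℂ) ^ k) ↔
      ∫⁻ z, hh α k g z ^ p.toReal ≠ ∞ := by
  unfold MemL MemLp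
  rw [eLpNorm_lt_top_iff_lintegral_rpow_enorm_lt_top hp hpt, lt_top_iff_ne_top]
  have e : ∀ z : EuclideanSpace ℂ (Fin n),
      ‖g z / ((1 + ‖z‖ ^ 2 : ℝ) : ℂ) ^ k * (Real.exp (-(α * ‖z‖ ^ 2 / 2)) : ℂ)‖ₑ =
        hh α k g z := by
    intro z
    rw [← ofReal_norm, norm_form]
    rfl
  simp only [e]
  exact ⟨fun h => h.2, fun h => ⟨(cont_form α k hg).aestronglyMeasurable, h⟩⟩

/-- membership in `L^∞_α` in terms of the weights -/
theorem memL_top_iff {n : ℕ} (α : ℝ) (k : ℕ) {g : EuclideanSpace ℂ (Fin n) → ℂ}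
    (hg : Continuous g) :
    MemL n ∞ α (fun z => g z / ((1 + ‖z‖ ^ 2 : ℝ) : ℂ) ^ k) ↔
      ∃ B, ∀ z, wt α k z * ‖g z‖ ≤ B := by
  constructor
  · intro h
    have h1 := h.2
    rw [eLpNorm_exponent_top] at h1
    have h2 := ae_le_eLpNormEssSup (μ := (volume : Measure (EuclideanSpace ℂ (Fin n))))
      (f := fun z => g z / ((1 + ‖z‖ ^ 2 : ℝ) : ℂ) ^ k * (Real.exp (-(α * ‖z‖ ^ 2 / 2)) : ℂ))
    refine ⟨ENNReal.toReal (eLpNormEssSup (fun z : EuclideanSpace ℂ (Fin n) =>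
      g z / ((1 + ‖z‖ ^ 2 : ℝ) : ℂ) ^ k * (Real.exp (-(α * ‖z‖ ^ 2 / 2)) : ℂ)) volume), ?_⟩
    set S := eLpNormEssSup (fun z : EuclideanSpace ℂ (Fin n) =>
      g z / ((1 + ‖z‖ ^ 2 : ℝ) : ℂ) ^ k * (Real.exp (-(α * ‖z‖ ^ 2 / 2)) : ℂ)) volume with hS
    have hopen : IsOpen {z : EuclideanSpace ℂ (Fin n) | S.toReal < wt α k z * ‖g z‖} :=
      isOpen_lt continuous_const ((wt_cont α k).mul hg.norm)
    have hnull : volume {z : EuclideanSpace ℂ (Fin n) | S.toReal < wt α k z * ‖g z‖} = 0 := by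
      refine measure_mono_null ?_ (ae_iff.1 h2)
      intro z hz hcon
      rw [← ofReal_norm, norm_form, ← ENNReal.ofReal_toReal h1.ne] at hcon
      have h3 := (ENNReal.ofReal_le_ofReal_iff ENNReal.toReal_nonneg).1 hcon
      exact absurd h3 (not_le.2 hz)
    have hempty := (hopen.measure_eq_zero_iff volume).1 hnull
    intro z
    by_contra hcon
    have : z ∈ {z : EuclideanSpace ℂ (Fin n) | S.toReal < wt α k z * ‖g z‖} := not_le.1 hcon
    rw [hempty] at this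
    exact this
  · rintro ⟨B, hB⟩
    refine memLp_top_of_bound (cont_form α k hg).aestronglyMeasurable B ?_
    refine Filter.Eventually.of_forall fun z => ?_
    rw [norm_form]
    exact hB z

theorem main {n : ℕ} {p : ℝ≥0∞} (hp : p ≠ 0) {α : ℝ} (hα : 0 < α)
    {f : EuclideanSpace ℂ (Fin n) → ℂ} (hf : Entire n f) (N : ℕ) :
    MemL n p α (fun z => (R n)^[N] f z / ((1 + ‖z‖ ^ 2 : ℝ) : ℂ) ^ N) ↔
      MemL n p α (fun z => f z / ((1 + ‖z‖ ^ 2 : ℝ) : ℂ) ^ 0) := by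
  induction N with
  | zero => rfl
  | succ N ih =>
    rw [← ih]
    rw [Function.iterate_succ_apply']
    set g := (R n)^[N] f with hg
    have hge : Entire n g := hf.iter N
    have hgd := hge.differentiable
    have hRd := hge.R.differentiable
    have hrd := hge.radial.differentiable
    by_cases hpt : p = ∞
    · subst hpt
      rw [memL_top_iff α (N + 1) hRd.continuous, memL_top_iff α N hgd.continuous, R_eq hgd]
      exact ⟨rev_step_inf hα N hgd hrd, fwd_step_inf hα N hgd hrd⟩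
    · rw [memL_iff hp hpt α (N + 1) hRd.continuous, memL_iff hp hpt α N hgd.continuous, R_eq hgd]
      have hp0 := ENNReal.toReal_pos hp hpt
      exact ⟨rev_step hp0 hα N hgd hrd, fwd_step hp0 hα N hgd hrd⟩

/-- For every `n ≥ 1`, every `0 < p ≤ ∞`, every `α > 0`, every `N ≥ 1` and every entire function
`f` on `ℂ^n`: `f` belongs to the Fock space `F^p_α` if and only if `R^N f(z) / (1+|z|²)^N` belongs
to `L^p_α`. -/
theorem result : ∀ n : ℕ, 1 ≤ n → ∀ p : ℝ≥0∞, 0 < p → ∀ α : ℝ, 0 < α → ∀ N : ℕ, 1 ≤ N →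
    ∀ f : EuclideanSpace ℂ (Fin n) → ℂ, Entire n f →
      (MemFock n p α f ↔
        MemL n p α (fun z => (R n)^[N] f z / ((1 + ‖z‖ ^ 2 : ℝ) : ℂ) ^ N)) := by
  intro n _ p hp α hα N _ f hf
  rw [main hp.ne' hα hf N]
  simp only [pow_zero, div_one]
  exact ⟨fun h => h.2, fun h => ⟨hf, h⟩⟩

end Pool.Agent.Results.MP_bbe01f_an.RadialDerivative
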